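import Pool.Agent.G02.StmtsR
import Pool.Agent.Helper31_GT.F_CLS

/-!
# Squad G02, CLG: the classes over the field of rational functions
-/

set_option autoImplicit false

open Polynomial Pool.Agent.NJ Pool.Agent.GT.F.H31

noncomputable section

namespace Pool.Agent.G02.H38

/-- the order of `f` at `t` is at least `n` -/
def Lo (t : ℂ) (n : ℤ) (f : RatFunc ℚ) : Prop := f ≠ 0 → n ≤ vt t f

theorem Lo.mono {t : ℂ} {n k : ℤ} {f : RatFunc ℚ} (h : Lo t n f) (hk : k ≤ n) : Lo t k f :=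
  fun hf => hk.trans (h hf)

theorem Lo.add {t : ℂ} {n : ℤ} {f g : RatFunc ℚ} (hf : Lo t n f) (hg : Lo t n g) :
    Lo t n (f + g) := by
  intro hfg
  by_cases h1 : f = 0
  · subst h1
    rw [zero_add] at hfg ⊢
    exact hg hfg
  · by_cases h2 : g = 0
    · subst h2
      rw [add_zero]
      exact hf h1
    · exact (le_min (hf h1) (hg h2)).trans (vt_add_ge t h1 h2 hfg)

theorem Lo.mul {t : ℂ} {n k : ℤ} {f g : RatFunc ℚ} (hf : Lo t n f) (hg : Lo t k g) :
    Lo t (n + k) (f * g) := by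
  intro hfg
  have h1 : f ≠ 0 := left_ne_zero_of_mul hfg
  have h2 : g ≠ 0 := right_ne_zero_of_mul hfg
  rw [vt_mul t h1 h2]
  exact add_le_add (hf h1) (hg h2)

theorem add_lo {t : ℂ} {n : ℤ} {f g : RatFunc ℚ} (hf : f ≠ 0) (hn : vt t f < n) (hg : Lo t n g) :
    f + g ≠ 0 ∧ vt t (f + g) = vt t f := by
  by_cases h2 : g = 0
  · subst h2
    rw [add_zero]
    exact ⟨hf, rfl⟩
  · have h3 : vt t f < vt t g := lt_of_lt_of_le hn (hg h2)
    refine ⟨?_, vt_add_lt t hf h2 h3⟩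
    intro h4
    have h5 : f = -g := eq_neg_of_add_eq_zero_left h4
    rw [h5, vt_neg t g h2] at h3
    exact lt_irrefl _ h3

theorem core (t : ℂ) (m : ℤ) (A B x y : RatFunc ℚ) (hA : Lo t (2 * m) A) (hB0 : B ≠ 0)
    (hB : vt t B = 4 * m) (hx : x ≠ 0) (hy : y ^ 2 = x * (x ^ 2 + A * x + B)) :
    Even (vt t x) := by
  have hx2 : x ^ 2 ≠ 0 := pow_ne_zero 2 hx
  have vx2 : vt t (x ^ 2) = 2 * vt t x := by
    rw [sq, vt_mul t hx hx]
    ring
  have lx : Lo t (vt t x) x := fun _ => le_rfl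
  have lax : Lo t (2 * m + vt t x) (A * x) := hA.mul lx
  have lB : Lo t (4 * m) B := fun _ => hB.ge
  have lx2 : Lo t (2 * vt t x) (x ^ 2) := fun _ => vx2.ge
  have hyy : x ^ 2 + A * x + B ≠ 0 → 2 * vt t y = vt t x + vt t (x ^ 2 + A * x + B) := by
    intro h
    have hy0 : y ≠ 0 := by
      intro h1
      rw [h1, zero_pow two_ne_zero] at hy
      exact mul_ne_zero hx h hy.symm
    have h2 := congrArg (vt t) hy
    rw [sq, vt_mul t hy0 hy0, vt_mul t hx h] at h2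
    linarith
  rcases lt_trichotomy (vt t x) (2 * m) with h | h | h
  · have l1 : Lo t (2 * vt t x + 1) (A * x + B) :=
      (lax.mono (by linarith)).add (lB.mono (by linarith))
    obtain ⟨h1, h2⟩ := add_lo hx2 (by rw [vx2]; linarith) l1
    rw [← add_assoc] at h1 h2
    have h3 := hyy h1
    rw [h2, vx2] at h3
    exact ⟨vt t y - vt t x, by linarith⟩
  · exact ⟨m, by rw [h]; ring⟩
  · have l1 : Lo t (4 * m + 1) (x ^ 2 + A * x) :=
      (lx2.mono (by linarith)).add (lax.mono (by linarith))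
    obtain ⟨h1, h2⟩ := add_lo hB0 (by rw [hB]; linarith) l1
    rw [add_comm] at h1 h2
    have h3 := hyy h1
    rw [h2, hB] at h3
    exact ⟨vt t y - 2 * m, by linarith⟩

theorem lo_of_dvd (t : ℂ) (m : ℕ) (a : ℚ[X])
    (h : (X - C t) ^ (2 * m) ∣ a.map (algebraMap ℚ ℂ)) :
    Lo t (2 * (m : ℤ)) (algebraMap ℚ[X] (RatFunc ℚ) a) := by
  intro h0
  have ha : a ≠ 0 := by
    intro h1
    rw [h1, map_zero] at h0
    exact h0 rfl
  rw [vt_poly t ha]
  have h1 : 2 * m ≤ mu t a := by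
    unfold mu
    rw [Polynomial.le_rootMultiplicity_iff
      ((Polynomial.map_ne_zero_iff (algebraMap ℚ ℂ).injective).2 ha)]
    exact h
  exact_mod_cast h1

/-- CLG -/
theorem clg (hsq : GT.D.SqpStmt) : ClgStmt := by
  intro a b B hb hd hB
  have hg : ∀ t : ℂ, ¬ (∃ c ∈ B, t = ((c : ℚ) : ℂ)) → Gt a b t := by
    intro t ht
    by_contra h
    exact ht (hB t h)
  have hAd : algebraMap ℚ[X] (RatFunc ℚ) a ^ 2 - 4 * algebraMap ℚ[X] (RatFunc ℚ) b =
      algebraMap ℚ[X] (RatFunc ℚ) (a ^ 2 - 4 * b) := by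
    simp only [map_sub, map_mul, map_pow, map_ofNat]
  have hA2 : -2 * algebraMap ℚ[X] (RatFunc ℚ) a = algebraMap ℚ[X] (RatFunc ℚ) (-2 * a) := by
    simp only [map_mul, map_neg, map_ofNat]
  refine ⟨?_, ?_, ?_, ?_⟩
  · intro x y hx hy
    refine cls hsq B x hx fun t ht => ?_
    obtain ⟨m, h1, h2, -⟩ := hg t ht
    refine core t m _ _ x y (lo_of_dvd t m a h1) (am_ne hb) ?_ hx hy
    rw [vt_poly t hb]
    have h3 : mu t b = 4 * m := h2
    rw [h3]
    push_cast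
    ring
  · intro x y hx hy
    rw [hAd, hA2] at hy
    refine cls hsq B x hx fun t ht => ?_
    obtain ⟨m, h1, -, h2⟩ := hg t ht
    refine core t m _ _ x y (lo_of_dvd t m (-2 * a) ?_) (am_ne hd) ?_ hx hy
    · rw [Polynomial.map_mul]
      exact Dvd.dvd.mul_left h1 _
    · rw [vt_poly t hd]
      have h3 : mu t (a ^ 2 - 4 * b) = 4 * m := h2
      rw [h3]
      push_cast
      ring
  · refine cls hsq B _ (am_ne hb) fun t ht => ?_
    obtain ⟨m, -, h2, -⟩ := hg t ht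
    rw [vt_poly t hb]
    have h3 : mu t b = 4 * m := h2
    rw [h3]
    exact ⟨2 * (m : ℤ), by push_cast; ring⟩
  · refine cls hsq B _ (am_ne hd) fun t ht => ?_
    obtain ⟨m, -, -, h2⟩ := hg t ht
    rw [vt_poly t hd]
    have h3 : mu t (a ^ 2 - 4 * b) = 4 * m := h2
    rw [h3]
    exact ⟨2 * (m : ℤ), by push_cast; ring⟩

end Pool.Agent.G02.H38
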